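import Mathlib

set_option autoImplicit false

namespace Pool.Agent.Lead.ER

open Polynomial Complex Metric

lemma radial (r : ℝ) (hr0 : 0 ≤ r) (hr1 : r ≤ 1) (w : ℂ) (hw : ‖w‖ ≤ 1) :
    ‖1 - w‖ ≤ (2 / (1 + r)) * ‖1 - r * w‖ := by
  have h1 : 0 < 1 + r := by linarith
  rw [div_mul_eq_mul_div, le_div_iff₀ h1]
  have hw2 : w.re ^ 2 + w.im ^ 2 ≤ 1 := by
    have : ‖w‖ ^ 2 ≤ 1 := by nlinarith [norm_nonneg w]
    rw [Complex.sq_norm, Complex.normSq_apply] at this
    nlinarith
  have hre : -1 ≤ w.re := by nlinarith [sq_nonneg w.im]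
  apply (sq_le_sq₀ (by positivity) (by positivity)).mp
  rw [mul_pow, mul_pow, Complex.sq_norm, Complex.sq_norm, Complex.normSq_apply,
    Complex.normSq_apply]
  simp only [sub_re, one_re, sub_im, one_im, mul_re, ofReal_re, ofReal_im, mul_im, zero_mul,
    sub_zero, add_zero, zero_sub]
  have key : 0 ≤ (1 - r) * (3 + r - (w.re ^ 2 + w.im ^ 2) * (1 + 3 * r) + 2 * w.re * (1 - r)) := by
    apply mul_nonneg (by linarith)
    nlinarith [mul_le_mul_of_nonneg_right hw2 (show 0 ≤ 1 + 3 * r by linarith),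
      mul_le_mul_of_nonneg_right hre (show 0 ≤ 1 - r by linarith)]
  nlinarith [key]

lemma prod_radial (S : Multiset ℂ) (hS : ∀ z ∈ S, ‖z‖ ≤ 1) (r : ℝ) (hr0 : 0 ≤ r) (hr1 : r ≤ 1)
    (u : ℂ) (hu : ‖u‖ ≤ 1) :
    ‖(S.map (fun z => 1 - z * u)).prod‖ ≤
      (2 / (1 + r)) ^ S.card * ‖(S.map (fun z => 1 - z * (r * u))).prod‖ := by
  induction S using Multiset.induction_on with
  | empty => simp
  | cons a S ih =>
    simp only [Multiset.map_cons, Multiset.prod_cons, Multiset.card_cons, norm_mul]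
    have h1 := radial r hr0 hr1 (a * u) (by
      rw [norm_mul]; exact mul_le_one₀ (hS a (by simp)) (norm_nonneg _) hu)
    have h2 := ih (fun z hz => hS z (by simp [hz]))
    have e : (r : ℂ) * (a * u) = a * (r * u) := by ring
    rw [e] at h1
    calc _ ≤ (2 / (1 + r) * ‖1 - a * (r * u)‖) *
          ((2 / (1 + r)) ^ S.card * ‖(S.map (fun z => 1 - z * (r * u))).prod‖) :=
          mul_le_mul h1 h2 (norm_nonneg _) (by positivity)
      _ = _ := by ring

lemma exists_log (S : Multiset ℂ) (hS : ∀ z ∈ S, ‖z‖ ≤ 1) :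
    ∃ f : ℂ → ℂ, DifferentiableOn ℂ f (ball 0 1) ∧ f 0 = 0 ∧
      ∀ u ∈ ball (0:ℂ) 1, Complex.exp (f u) = (S.map (fun z => 1 - z * u)).prod := by
  induction S using Multiset.induction_on with
  | empty => exact ⟨fun _ => 0, by fun_prop, rfl, by simp⟩
  | cons a S ih =>
    obtain ⟨f, hf, h0, he⟩ := ih (fun z hz => hS z (by simp [hz]))
    have hslit : ∀ u ∈ ball (0:ℂ) 1, 1 - a * u ∈ slitPlane := by
      intro u hu
      left
      have h1 : ‖a * u‖ < 1 := by
        rw [norm_mul]
        have := hS a (by simp)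
        have hu' : ‖u‖ < 1 := by simpa using hu
        nlinarith [norm_nonneg a, norm_nonneg u]
      have := (abs_re_le_norm (a * u))
      have := le_abs_self (a * u).re
      simp only [sub_re, one_re]
      linarith
    refine ⟨fun u => Complex.log (1 - a * u) + f u, ?_, by simp [h0], ?_⟩
    · apply DifferentiableOn.add _ hf
      intro u hu
      have hd : DifferentiableAt ℂ (fun u : ℂ => 1 - a * u) u := by fun_prop
      exact (DifferentiableAt.clog hd (hslit u hu)).differentiableWithinAt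
    · intro u hu
      rw [Complex.exp_add, he u hu, Complex.exp_log (slitPlane_ne_zero (hslit u hu))]
      simp

/-- Harnack type bound for a product with all zeros outside the open unit disc. -/
lemma bc_prod (S : Multiset ℂ) (hS : ∀ z ∈ S, ‖z‖ ≤ 1) (r r' M : ℝ) (hr' : 0 ≤ r') (hrr : r' < r)
    (hr1 : r ≤ 1) (hM : 0 < M)
    (hlow : ∀ u : ℂ, ‖u‖ < r → Real.exp (-M) ≤ ‖(S.map (fun z => 1 - z * u)).prod‖)
    (u : ℂ) (hu : ‖u‖ = 1) :
    ‖(S.map (fun z => 1 - z * u)).prod‖ ≤
      (2 / (1 + r')) ^ S.card * Real.exp (2 * M * r' / (r - r')) := by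
  obtain ⟨f, hf, h0, he⟩ := exists_log S hS
  have hsub : ball (0:ℂ) r ⊆ ball 0 1 := ball_subset_ball hr1
  have hn : ‖(r' : ℂ) * u‖ = r' := by
    rw [norm_mul, hu, Complex.norm_real, Real.norm_eq_abs, abs_of_nonneg hr', mul_one]
  have hmem : (r' : ℂ) * u ∈ ball (0:ℂ) r := by
    rw [mem_ball_zero_iff, hn]; exact hrr
  have hb := Complex.borelCaratheodory_zero (f := fun v => - f v) (M := M) (R := r)
    (z := r' * u) hM (hf.mono hsub).neg (by
      intro v hv
      have h1 := hlow v (by simpa using hv)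
      rw [← he v (hsub hv), Complex.norm_exp, Real.exp_le_exp] at h1
      show (-f v).re ≤ M
      simp only [neg_re]; linarith) (by linarith) hmem (by simp [h0])
  rw [hn, norm_neg] at hb
  refine (prod_radial S hS r' hr' (by linarith) u hu.le).trans ?_
  gcongr
  rw [← he _ (hsub hmem), Complex.norm_exp, Real.exp_le_exp]
  exact (le_abs_self _).trans ((abs_re_le_norm _).trans hb)

/-- Joukowski factorisation of a monic polynomial without zeros on the image of the punctured disc. -/
lemma jouk (R : Multiset ℂ)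
    (hR : ∀ u : ℂ, u ≠ 0 → ‖u‖ < 1 → (R.map (fun ρ => (u + u⁻¹) / 2 - ρ)).prod ≠ 0) :
    ∃ S : Multiset ℂ, (∀ z ∈ S, ‖z‖ ≤ 1) ∧ S.card = 2 * R.card ∧
      ∀ u : ℂ, u ≠ 0 → (S.map (fun z => 1 - z * u)).prod =
        (2 * u) ^ R.card * (R.map (fun ρ => (u + u⁻¹) / 2 - ρ)).prod := by
  induction R using Multiset.induction_on with
  | empty => exact ⟨0, by simp, by simp, by simp⟩
  | cons ρ R ih =>
    obtain ⟨S, hS, hc, he⟩ := ih (by
      intro u h0 h1 h
      apply hR u h0 h1
      simp [h])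
    obtain ⟨s, hs⟩ : ∃ s : ℂ, s ^ 2 = ρ ^ 2 - 1 := IsAlgClosed.exists_pow_nat_eq _ (by norm_num)
    have hab : (ρ + s) * (ρ - s) = 1 := by linear_combination -hs
    have key : ∀ a b : ℂ, a * b = 1 → a + b = 2 * ρ → ‖a‖ ≤ 1 := by
      intro a b h1 h2
      by_contra hlt
      push Not at hlt
      have hb0 : b ≠ 0 := by rintro rfl; simp at h1
      have hbn : ‖b‖ < 1 := by
        have : ‖a‖ * ‖b‖ = 1 := by rw [← norm_mul, h1, norm_one]
        nlinarith [norm_nonneg b]
      apply hR b hb0 hbn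
      have : b⁻¹ = a := by
        rw [eq_comm]; exact eq_inv_of_mul_eq_one_left h1
      simp only [Multiset.map_cons, Multiset.prod_cons]
      rw [this]
      have : (b + a) / 2 - ρ = 0 := by linear_combination h2 / 2
      rw [this, zero_mul]
    refine ⟨(ρ + s) ::ₘ (ρ - s) ::ₘ S, ?_, ?_, ?_⟩
    · intro z hz
      simp only [Multiset.mem_cons] at hz
      rcases hz with rfl | rfl | hz
      · exact key _ (ρ - s) hab (by ring)
      · exact key _ (ρ + s) (by rw [mul_comm]; exact hab) (by ring)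
      · exact hS z hz
    · simp only [Multiset.card_cons, hc]; ring
    · intro u hu
      simp only [Multiset.map_cons, Multiset.prod_cons, Multiset.card_cons, he u hu]
      have : (1 - (ρ + s) * u) * (1 - (ρ - s) * u) = 2 * u * ((u + u⁻¹) / 2 - ρ) := by
        field_simp
        linear_combination (-u ^ 2) * hs
      rw [← mul_assoc, this]; ring

end Pool.Agent.Lead.ER
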