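import Mathlib

set_option autoImplicit false

namespace Pool.Agent.Lead.ER

open Polynomial MeasureTheory Set

noncomputable def psi (y : ℝ) : ℝ := (Metric.ball (0:ℝ) 3).indicator (fun y => (Real.sqrt |y|)⁻¹) y

lemma psi_nonneg (y : ℝ) : 0 ≤ psi y := by
  unfold psi
  apply Set.indicator_nonneg
  intro y _; positivity

lemma psi_integrable : Integrable psi := by
  unfold psi
  rw [integrable_indicator_iff Metric.isOpen_ball.measurableSet]
  apply integrableOn_ball_of_norm_le_rpow (C := 1) (α := 1/2) (by simp) (by simp; norm_num)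
  · refine Filter.Eventually.of_forall (fun x => ?_)
    rw [one_mul, Real.norm_eq_abs, abs_of_nonneg (by positivity), Real.norm_eq_abs,
      Real.sqrt_eq_rpow, Real.rpow_neg (abs_nonneg _)]
  · apply Measurable.aestronglyMeasurable
    fun_prop

lemma bad_set : ∃ K : ℝ, 0 ≤ K ∧ ∀ (m : ℕ), 1 ≤ m → ∀ (s : ℕ → ℝ), (∀ l, s l ∈ Icc (-1:ℝ) 1) →
    ∀ δ : ℝ, 0 < δ → ∃ B : Set ℝ, MeasurableSet B ∧ volume B ≤ ENNReal.ofReal (K * Real.sqrt δ) ∧
      ∀ x ∈ Icc (-1:ℝ) 1, x ∉ B → δ ^ m ≤ ∏ l ∈ Finset.range m, |x - s l| := by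
  refine ⟨∫ y, psi y, integral_nonneg psi_nonneg, ?_⟩
  intro m hm s hs δ hδ
  set f : ℝ → ℝ := fun x => ∑ l ∈ Finset.range m, Real.sqrt δ * psi (x - s l) with hf
  have hint : ∀ l, Integrable (fun x => Real.sqrt δ * psi (x - s l)) :=
    fun l => (psi_integrable.comp_sub_right (s l)).const_mul _
  have hfi : Integrable f := integrable_finsetSum _ (fun l _ => hint l)
  have hf0 : ∀ x, 0 ≤ f x := fun x =>
    Finset.sum_nonneg (fun l _ => mul_nonneg (Real.sqrt_nonneg _) (psi_nonneg _))
  have hI : ∫ x, f x = m * ((∫ y, psi y) * Real.sqrt δ) := by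
    rw [hf, integral_finsetSum _ (fun l _ => hint l)]
    simp only [integral_const_mul, integral_sub_right_eq_self]
    simp [mul_comm]
  have hmpos : (0:ℝ) < m := by exact_mod_cast hm
  have hM := mul_meas_ge_le_integral_of_nonneg (Filter.Eventually.of_forall hf0) hfi (m : ℝ)
  rw [hI] at hM
  have hM2 : volume.real {x | (m:ℝ) ≤ f x} ≤ (∫ y, psi y) * Real.sqrt δ :=
    le_of_mul_le_mul_left hM hmpos
  have hfin : volume {x | (m:ℝ) ≤ f x} < ⊤ := hfi.measure_ge_lt_top hmpos
  have hpm : Measurable psi := by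
    unfold psi
    apply Measurable.indicator _ Metric.isOpen_ball.measurableSet
    fun_prop
  have hfm : Measurable f := by
    apply Finset.measurable_sum
    intro l _
    exact (hpm.comp (measurable_id.sub_const _)).const_mul _
  have hcount : (Set.range s).Countable := Set.countable_range s
  refine ⟨{x | (m:ℝ) ≤ f x} ∪ Set.range s, (measurableSet_le measurable_const hfm).union
    hcount.measurableSet, ?_, ?_⟩
  · refine (measure_union_le _ _).trans ?_
    rw [hcount.measure_zero, add_zero, ← ENNReal.ofReal_toReal hfin.ne]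
    exact ENNReal.ofReal_le_ofReal hM2
  · intro x hx hxB
    simp only [Set.mem_union, Set.mem_ofPred_eq, not_or, not_le, Set.mem_range, not_exists] at hxB
    obtain ⟨h1, h2⟩ := hxB
    have hpos : ∀ l, 0 < |x - s l| := fun l => abs_pos.mpr (sub_ne_zero.mpr (fun h => h2 l h.symm))
    have hpsi : ∀ l, psi (x - s l) = (Real.sqrt |x - s l|)⁻¹ := by
      intro l
      unfold psi
      rw [Set.indicator_of_mem]
      rw [mem_ball_zero_iff, Real.norm_eq_abs, abs_lt]
      have := hs l
      constructor <;> linarith [hx.1, hx.2, this.1, this.2]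
    have hlog : ∀ l, (Real.log δ - Real.log |x - s l|) / 2 ≤
        Real.sqrt δ * psi (x - s l) - 1 := by
      intro l
      rw [hpsi l]
      have hp := hpos l
      have : 0 < Real.sqrt δ * (Real.sqrt |x - s l|)⁻¹ := by positivity
      refine le_trans (le_of_eq ?_) (Real.log_le_sub_one_of_pos this)
      rw [Real.log_mul (by positivity) (by positivity), Real.log_inv, Real.log_sqrt hδ.le,
        Real.log_sqrt hp.le]
      ring
    have hsum := Finset.sum_le_sum (s := Finset.range m) (fun l _ => hlog l)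
    rw [Finset.sum_sub_distrib, ← Finset.sum_div, Finset.sum_sub_distrib] at hsum
    simp only [Finset.sum_const, Finset.card_range, nsmul_eq_mul, mul_one] at hsum
    have h3 : (m:ℝ) * Real.log δ ≤ ∑ l ∈ Finset.range m, Real.log |x - s l| := by
      have : f x = ∑ l ∈ Finset.range m, Real.sqrt δ * psi (x - s l) := rfl
      linarith
    rw [← Real.log_prod (fun l _ => (hpos l).ne'), ← Real.log_pow] at h3
    exact (Real.log_le_log_iff (by positivity) (Finset.prod_pos (fun l _ => hpos l))).mp h3

lemma prod_range_mul (f : ℕ → ℝ) (a b : ℕ) :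
    ∏ k ∈ Finset.range (a * b), f k = ∏ j ∈ Finset.range a, ∏ l ∈ Finset.range b, f (j * b + l) := by
  induction a with
  | zero => simp
  | succ a ih => rw [Nat.succ_mul, Finset.prod_range_add, ih, Finset.prod_range_succ]

lemma groups (s : ℕ → ℝ) (hs : Monotone s) (m : ℕ) (x : ℝ) (k : ℕ) :
    ∃ i ≤ k, (∏ j ∈ Finset.range k, |x - s ((j + 1) * m)|) ^ m *
        (∏ l ∈ Finset.range m, |x - s (i * m + l)|) ≤
      ∏ j ∈ Finset.range (k + 1), ∏ l ∈ Finset.range m, |x - s (j * m + l)| := by
  induction k with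
  | zero => exact ⟨0, le_rfl, by simp⟩
  | succ k ih =>
    rcases le_total x (s ((k + 1) * m)) with h | h
    · obtain ⟨i, hi, H⟩ := ih
      refine ⟨i, by omega, ?_⟩
      rw [Finset.prod_range_succ _ (k + 1), Finset.prod_range_succ _ k, mul_pow]
      have h2 : |x - s ((k + 1) * m)| ^ m ≤ ∏ l ∈ Finset.range m, |x - s ((k + 1) * m + l)| := by
        have := Finset.prod_le_prod (s := Finset.range m) (f := fun _ => |x - s ((k + 1) * m)|)
          (g := fun l => |x - s ((k + 1) * m + l)|) (fun _ _ => abs_nonneg _) (by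
            intro l _
            have := hs (show (k + 1) * m ≤ (k + 1) * m + l by omega)
            rw [abs_of_nonpos (by linarith), abs_of_nonpos (by linarith)]
            linarith)
        simpa using this
      calc _ = ((∏ j ∈ Finset.range k, |x - s ((j + 1) * m)|) ^ m *
            (∏ l ∈ Finset.range m, |x - s (i * m + l)|)) * |x - s ((k + 1) * m)| ^ m := by ring
        _ ≤ _ := mul_le_mul H h2 (by positivity)
            (Finset.prod_nonneg (fun _ _ => Finset.prod_nonneg (fun _ _ => abs_nonneg _)))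
    · refine ⟨k + 1, le_rfl, ?_⟩
      rw [Finset.prod_range_succ _ (k + 1)]
      apply mul_le_mul_of_nonneg_right _ (Finset.prod_nonneg (fun _ _ => abs_nonneg _))
      rw [← Finset.prod_pow]
      apply Finset.prod_le_prod (fun _ _ => by positivity)
      intro j hj
      have hj' : j + 1 ≤ k + 1 := by simpa [Nat.lt_succ_iff] using Finset.mem_range.mp hj
      have h0 := hs (Nat.mul_le_mul_right m hj')
      have := Finset.prod_le_prod (s := Finset.range m) (f := fun _ => |x - s ((j + 1) * m)|)
          (g := fun l => |x - s (j * m + l)|) (fun _ _ => abs_nonneg _) (by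
            intro l hl
            have hl' := Finset.mem_range.mp hl
            have := hs (show j * m + l ≤ (j + 1) * m by rw [Nat.succ_mul]; omega)
            rw [abs_of_nonneg (by linarith), abs_of_nonneg (by linarith)]
            linarith)
      simpa using this

lemma sorted_roots (q : ℝ[X]) (hq : q.Monic) :
    ∃ t : ℕ → ℝ, Monotone t ∧ (∀ i, t i ∈ Icc (-1:ℝ) 1) ∧
      ∀ x ∈ Icc (-1:ℝ) 1, ∏ i ∈ Finset.range q.natDegree, |x - t i| ≤ |q.eval x| := by
  classical
  set qc := q.map (algebraMap ℝ ℂ) with hqc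
  have hqm : qc.Monic := hq.map _
  have hcard : qc.roots.card = q.natDegree := by
    rw [← hq.natDegree_map (algebraMap ℝ ℂ)]
    exact (IsAlgClosed.splits qc).natDegree_eq_card_roots.symm
  set cl : ℂ → ℝ := fun z => max (-1) (min 1 z.re) with hcl
  set L := (qc.roots.map cl).sort (· ≤ ·) with hL
  have hlen : L.length = q.natDegree := by rw [hL, Multiset.length_sort, Multiset.card_map, hcard]
  have hmem : ∀ a ∈ L, a ∈ Icc (-1:ℝ) 1 := by
    intro a ha
    rw [hL, Multiset.mem_sort, Multiset.mem_map] at ha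
    obtain ⟨z, _, rfl⟩ := ha
    exact ⟨le_max_left _ _, max_le (by norm_num) (min_le_left _ _)⟩
  have hpw : L.Pairwise (· ≤ ·) := Multiset.pairwise_sort _ _
  refine ⟨fun i => if h : i < L.length then L[i] else 1, ?_, ?_, ?_⟩
  · intro i j hij
    by_cases hj : j < L.length
    · have hi : i < L.length := by omega
      simp only [hi, hj, dif_pos]
      rcases hij.eq_or_lt with rfl | hlt
      · exact le_rfl
      · exact List.pairwise_iff_getElem.mp hpw i j hi hj hlt
    · by_cases hi : i < L.length
      · simp only [hi, hj, dif_pos, dif_neg, not_false_eq_true]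
        exact (hmem _ (List.getElem_mem hi)).2
      · simp [hi, hj]
  · intro i
    by_cases hi : i < L.length
    · simp only [hi, dif_pos]; exact hmem _ (List.getElem_mem hi)
    · simp [hi]
  · intro x hx
    have e1 : ∏ i ∈ Finset.range q.natDegree,
        |x - (if h : i < L.length then L[i] else 1)| = (L.map (fun a => |x - a|)).prod := by
      rw [← hlen, Finset.prod_range, ← Fin.prod_univ_fun_getElem L (fun a => |x - a|)]
      apply Finset.prod_congr rfl
      intro i _
      simp
    have e2 : (L.map (fun a => |x - a|)).prod = (qc.roots.map (fun z => |x - cl z|)).prod := by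
      rw [← Multiset.prod_coe, ← Multiset.map_coe, hL, Multiset.sort_eq, Multiset.map_map]
      rfl
    have e3 : |q.eval x| = (qc.roots.map (fun z => ‖(x:ℂ) - z‖)).prod := by
      have h1 : qc.eval (x:ℂ) = ((q.eval x : ℝ) : ℂ) := by
        rw [hqc, Polynomial.eval_map_algebraMap]
        exact aeval_algebraMap_apply_eq_algebraMap_eval x q
      have h2 := (IsAlgClosed.splits qc).eval_eq_prod_roots_of_monic hqm (x:ℂ)
      rw [← Real.norm_eq_abs, ← Complex.norm_real, ← h1, h2]
      rw [show ∀ S : Multiset ℂ, ‖S.prod‖ = (S.map (fun z => ‖z‖)).prod from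
        fun S => map_multiset_prod (normHom (α := ℂ)) S, Multiset.map_map]
      rfl
    rw [e1, e2, e3]
    apply Multiset.prod_map_le_prod_map₀ _ _ (fun _ _ => abs_nonneg _)
    intro z _
    refine le_trans ?_ (Complex.abs_re_le_norm _)
    simp only [Complex.sub_re, Complex.ofReal_re, hcl]
    rcases le_total z.re 1 with h | h
    · rw [min_eq_right h]
      rcases le_total (-1) z.re with h' | h'
      · rw [max_eq_right h']
      · rw [max_eq_left h', abs_of_nonneg (by linarith [hx.1]), abs_of_nonneg (by linarith [hx.1])]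
        linarith
    · rw [min_eq_left h, max_eq_right (by norm_num), abs_of_nonpos (by linarith [hx.2]),
        abs_of_nonpos (by linarith [hx.2])]
      linarith

/-- Discretisation: a monic polynomial of any degree small on a set gives one of prescribed degree. -/
lemma disc : ∃ K : ℝ, 0 ≤ K ∧ ∀ (q : ℝ[X]), q.Monic → 1 ≤ q.natDegree → ∀ (k : ℕ) (δ : ℝ), 0 < δ →
    ∃ P : ℝ[X], P.Monic ∧ P.natDegree = k ∧ ∃ B : Set ℝ, MeasurableSet B ∧
      volume B ≤ ENNReal.ofReal ((k + 1) * (K * Real.sqrt δ)) ∧
      ∀ x ∈ Icc (-1:ℝ) 1, x ∉ B →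
        (|P.eval x| * δ) ^ q.natDegree ≤ |q.eval x| ^ (k + 1) := by
  obtain ⟨K, hK, H⟩ := bad_set
  refine ⟨K, hK, ?_⟩
  intro q hq hm k δ hδ
  obtain ⟨t, ht, htm, htq⟩ := sorted_roots q hq
  set m := q.natDegree with hmdef
  set s : ℕ → ℝ := fun j => t (j / (k + 1)) with hs
  have hsm : Monotone s := fun a b hab => ht (Nat.div_le_div_right hab)
  choose B hBm hBv hB using fun i : ℕ => H m hm (fun l => s (i * m + l)) (fun l => htm _) δ hδ
  refine ⟨∏ j ∈ Finset.range k, (X - C (s ((j + 1) * m))),
    monic_prod_of_monic _ _ (fun _ _ => monic_X_sub_C _), ?_,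
    ⋃ i ∈ Finset.range (k + 1), B i, Finset.measurableSet_biUnion _ (fun i _ => hBm i), ?_, ?_⟩
  · rw [natDegree_prod_of_monic _ _ (fun _ _ => monic_X_sub_C _)]; simp
  · refine (measure_biUnion_finset_le _ _).trans ?_
    refine (Finset.sum_le_sum (fun i _ => hBv i)).trans ?_
    rw [Finset.sum_const, Finset.card_range, nsmul_eq_mul,
      ENNReal.ofReal_mul (show (0:ℝ) ≤ k + 1 by positivity)]
    apply le_of_eq
    congr 1
    rw [← ENNReal.ofReal_natCast]; simp
  · intro x hx hxB
    obtain ⟨i, hi, Hi⟩ := groups s hsm m x k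
    have hxi : x ∉ B i := fun h => hxB (by
      simp only [Set.mem_iUnion]; exact ⟨i, Finset.mem_range.mpr (by omega), h⟩)
    have h1 := hB i x hx hxi
    have e1 : |(∏ j ∈ Finset.range k, (X - C (s ((j + 1) * m)))).eval x| =
        ∏ j ∈ Finset.range k, |x - s ((j + 1) * m)| := by
      rw [eval_prod, Finset.abs_prod]; simp
    rw [e1, mul_pow]
    refine (mul_le_mul_of_nonneg_left h1 (by positivity)).trans (Hi.trans ?_)
    rw [← prod_range_mul (fun j => |x - s j|), mul_comm, prod_range_mul]
    have e2 : ∀ j, ∏ l ∈ Finset.range (k + 1), |x - s (j * (k + 1) + l)| = |x - t j| ^ (k + 1) := by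
      intro j
      rw [Finset.prod_congr rfl (g := fun _ => |x - t j|)]
      · simp
      · intro l hl
        have hl' := Finset.mem_range.mp hl
        simp only [hs]
        rw [show (j * (k + 1) + l) / (k + 1) = j by
          rw [mul_comm, Nat.mul_add_div (by omega), Nat.div_eq_of_lt hl', add_zero]]
    simp only [e2]
    rw [Finset.prod_pow]
    exact pow_le_pow_left₀ (Finset.prod_nonneg (fun _ _ => abs_nonneg _)) (htq x hx) _

end Pool.Agent.Lead.ER
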