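import Mathlib

set_option autoImplicit false

namespace Pool.Agent.Lead.ER

open Polynomial MeasureTheory Set

lemma dec (p q : ℝ[X]) (k : ℕ) (hp : p.Monic) (hk : p.natDegree = k) (hq : q.degree < (k + 1 : ℕ)) :
    (q - C (q.coeff k) * p).degree < k := by
  rw [degree_lt_iff_coeff_zero] at hq ⊢
  intro m hm
  rw [coeff_sub, coeff_C_mul]
  rcases hm.eq_or_lt with rfl | hlt
  · have : p.coeff k = 1 := by rw [← hk]; exact hp.coeff_natDegree
    rw [this]; ring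
  · rw [hq m hlt, coeff_eq_zero_of_natDegree_lt (p := p) (by omega)]; ring

lemma orth_proj (B : ℝ[X] →ₗ[ℝ] ℝ[X] →ₗ[ℝ] ℝ) (hne : ∀ p : ℝ[X], p.Monic → B p p ≠ 0) (k : ℕ) :
    ∀ f : ℝ[X], ∃ g : ℝ[X], g.degree < k ∧ ∀ q : ℝ[X], q.degree < k → B (f - g) q = 0 := by
  induction k with
  | zero =>
    intro f
    refine ⟨0, by simp, fun q hq => ?_⟩
    have : q = 0 := by
      rw [← degree_eq_bot]
      simpa using hq
    simp [this]
  | succ k ih =>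
    intro f
    obtain ⟨g0, hg0, H0⟩ := ih (X ^ k)
    obtain ⟨g, hg, H⟩ := ih f
    have hpm : (X ^ k - g0 : ℝ[X]).Monic :=
      (monic_X_pow k).sub_of_left (by rwa [degree_X_pow])
    have hpd : (X ^ k - g0 : ℝ[X]).natDegree = k := by
      rw [natDegree_eq_of_degree_eq_some (n := k)]
      rw [degree_sub_eq_left_of_degree_lt (by rwa [degree_X_pow]), degree_X_pow]
    set p := X ^ k - g0 with hp
    have hpdeg : p.degree = k := by rw [degree_eq_natDegree hpm.ne_zero, hpd]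
    refine ⟨g + C (B (f - g) p / B p p) * p, ?_, fun q hq => ?_⟩
    · refine (degree_add_le _ _).trans_lt (max_lt (hg.trans ?_) ?_)
      · exact_mod_cast Nat.lt_succ_self k
      · rw [← smul_eq_C_mul]
        refine (degree_smul_le _ _).trans_lt ?_
        rw [hpdeg]; exact_mod_cast Nat.lt_succ_self k
    · have hd := dec p q k hpm hpd hq
      have e : q = (q.coeff k) • p + (q - C (q.coeff k) * p) := by
        rw [smul_eq_C_mul]; ring
      have e2 : f - (g + C (B (f - g) p / B p p) * p) =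
          (f - g) - (B (f - g) p / B p p) • p := by rw [smul_eq_C_mul]; ring
      rw [e2, e, map_add, map_smul, map_sub B, map_smul, LinearMap.sub_apply, LinearMap.sub_apply,
        LinearMap.smul_apply, LinearMap.smul_apply, H _ hd, H0 _ hd]
      have := hne p hpm
      simp only [smul_eq_mul]
      field_simp
      ring

lemma exists_orth (B : ℝ[X] →ₗ[ℝ] ℝ[X] →ₗ[ℝ] ℝ) (hne : ∀ p : ℝ[X], p.Monic → B p p ≠ 0) (k : ℕ) :
    ∃ p : ℝ[X], p.Monic ∧ p.natDegree = k ∧ ∀ q : ℝ[X], q.degree < k → B p q = 0 := by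
  obtain ⟨g0, hg0, H0⟩ := orth_proj B hne k (X ^ k)
  refine ⟨X ^ k - g0, (monic_X_pow k).sub_of_left (by rwa [degree_X_pow]), ?_, H0⟩
  rw [natDegree_eq_of_degree_eq_some (n := k)]
  rw [degree_sub_eq_left_of_degree_lt (by rwa [degree_X_pow]), degree_X_pow]

lemma jouk_dist (u : ℂ) (h0 : u ≠ 0) (h1 : ‖u‖ < 1) (x : ℝ) (hx : x ∈ Icc (-1:ℝ) 1) :
    (1 - ‖u‖) ^ 2 ≤ 2 * ‖u‖ * ‖(u + u⁻¹) / 2 - x‖ ∧ 2 * ‖u‖ * ‖(u + u⁻¹) / 2 - x‖ ≤ 4 := by
  set y := Real.sqrt (1 - x ^ 2) with hy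
  have hy2 : y ^ 2 = 1 - x ^ 2 := Real.sq_sqrt (by nlinarith [hx.1, hx.2])
  have hy3 : (y:ℂ) ^ 2 = 1 - (x:ℂ) ^ 2 := by exact_mod_cast hy2
  have e : (1 - (x + y * Complex.I) * u) * (1 - (x + (-y : ℝ) * Complex.I) * u) =
      2 * u * ((u + u⁻¹) / 2 - x) := by
    push_cast
    field_simp
    linear_combination (u ^ 2) * hy3 - (u ^ 2 * (y:ℂ) ^ 2) * Complex.I_sq
  have hn : ∀ v : ℝ, v ^ 2 = 1 - x ^ 2 → ‖((x:ℂ) + v * Complex.I) * u‖ = ‖u‖ := by
    intro v hv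
    rw [norm_mul, Complex.norm_add_mul_I, hv]; simp
  have hb : ∀ a : ℂ, ‖a‖ = ‖u‖ → 1 - ‖u‖ ≤ ‖1 - a‖ ∧ ‖1 - a‖ ≤ 2 := by
    intro a ha
    constructor
    · have := norm_sub_norm_le (1:ℂ) a
      rw [norm_one, ha] at this; exact this
    · have := norm_sub_le (1:ℂ) a
      rw [norm_one, ha] at this; linarith
  have b1 := hb _ (hn y hy2)
  have b2 := hb _ (hn (-y) (by rw [neg_sq]; exact hy2))
  have e' : 2 * ‖u‖ * ‖(u + u⁻¹) / 2 - x‖ =
      ‖1 - (x + y * Complex.I) * u‖ * ‖1 - (x + (-y : ℝ) * Complex.I) * u‖ := by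
    rw [← norm_mul, e, norm_mul, norm_mul]; simp
  rw [e']
  constructor
  · rw [sq]; exact mul_le_mul b1.1 b2.1 (by linarith) (norm_nonneg _)
  · nlinarith [b1.2, b2.2, norm_nonneg (1 - (x + y * Complex.I) * u),
      norm_nonneg (1 - (x + (-y : ℝ) * Complex.I) * u)]

lemma kernel (u : ℂ) (h0 : u ≠ 0) (h1 : ‖u‖ < 1) : ∃ x0 : ℝ, ∀ x ∈ Icc (-1:ℝ) 1,
    (u + u⁻¹) / 2 - x ≠ 0 ∧ ‖((u + u⁻¹) / 2 - x0) / ((u + u⁻¹) / 2 - x)‖ ≤ 1 ∧
      ((1 - ‖u‖) ^ 2 / 4) ^ 2 ≤ (((u + u⁻¹) / 2 - x0) / ((u + u⁻¹) / 2 - x)).re := by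
  set z := (u + u⁻¹) / 2 with hz
  set x0 : ℝ := max (-1) (min 1 z.re) with hx0
  have hx0m : x0 ∈ Icc (-1:ℝ) 1 := ⟨le_max_left _ _, max_le (by norm_num) (min_le_left _ _)⟩
  refine ⟨x0, fun x hx => ?_⟩
  obtain ⟨a1, a2⟩ := jouk_dist u h0 h1 x hx
  obtain ⟨b1, -⟩ := jouk_dist u h0 h1 x0 hx0m
  rw [← hz] at a1 a2 b1
  have hup : 0 < ‖u‖ := norm_pos_iff.mpr h0
  have hp : 0 < (1 - ‖u‖) ^ 2 := by have : 0 < 1 - ‖u‖ := by linarith
                                    positivity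
  have hzx : 0 < ‖z - x‖ := by
    by_contra h
    have : ‖z - x‖ = 0 := le_antisymm (not_lt.mp h) (norm_nonneg _)
    rw [this] at a1; linarith
  have hproj : 0 ≤ (z.re - x0) * (x0 - x) := by
    rcases le_total z.re 1 with h | h
    · rcases le_total (-1) z.re with h' | h'
      · rw [hx0, min_eq_right h, max_eq_right h']; simp
      · rw [hx0, min_eq_right h, max_eq_left h']
        exact mul_nonneg_of_nonpos_of_nonpos (by linarith) (by linarith [hx.1])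
    · rw [hx0, min_eq_left h, max_eq_right (by norm_num)]
      exact mul_nonneg (by linarith) (by linarith [hx.2])
  have n0 : ‖z - x0‖ ^ 2 = (z.re - x0) ^ 2 + z.im ^ 2 := by
    rw [Complex.sq_norm, Complex.normSq_apply]; simp; ring
  have n1 : ‖z - x‖ ^ 2 = (z.re - x) ^ 2 + z.im ^ 2 := by
    rw [Complex.sq_norm, Complex.normSq_apply]; simp; ring
  refine ⟨norm_pos_iff.mp hzx, ?_, ?_⟩
  · rw [norm_div, div_le_one hzx]
    apply (sq_le_sq₀ (norm_nonneg _) (norm_nonneg _)).mp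
    rw [n0, n1]
    nlinarith [sq_nonneg (x0 - x)]
  · rw [Complex.div_re, ← add_div, Complex.normSq_eq_norm_sq, le_div_iff₀ (by positivity)]
    have h5 : (1 - ‖u‖) ^ 2 / 4 * ‖z - x‖ ≤ ‖z - x0‖ := by
      have : (1 - ‖u‖) ^ 2 / 4 * ‖z - x‖ ≤ (2 * ‖u‖ * ‖z - x0‖) / 4 * ‖z - x‖ := by gcongr
      refine this.trans ?_
      have : (2 * ‖u‖ * ‖z - x0‖) / 4 * ‖z - x‖ = (2 * ‖u‖ * ‖z - x‖) / 4 * ‖z - x0‖ := by ring
      rw [this]
      have h6 : (2 * ‖u‖ * ‖z - x‖) / 4 ≤ 1 := by linarith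
      exact mul_le_of_le_one_left (norm_nonneg _) h6
    have h7 := pow_le_pow_left₀ (by positivity) h5 2
    rw [mul_pow, n0] at h7
    refine h7.trans ?_
    simp only [Complex.sub_re, Complex.ofReal_re, Complex.sub_im, Complex.ofReal_im, sub_zero]
    nlinarith

lemma cheb_jouk (u : ℂ) (h0 : u ≠ 0) (h1 : ‖u‖ < 1) (k : ℕ) :
    (1 - ‖u‖) / 2 ≤ ‖u‖ ^ k * ‖(Chebyshev.T ℂ k).eval ((u + u⁻¹) / 2)‖ := by
  have e1 : (u + u⁻¹) / 2 = Complex.cosh (Complex.log u) := by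
    rw [Complex.cosh, Complex.exp_neg, Complex.exp_log h0]
  have e2 : (Chebyshev.T ℂ k).eval ((u + u⁻¹) / 2) = (u ^ k + (u ^ k)⁻¹) / 2 := by
    rw [e1, Chebyshev.T_complex_cosh, Complex.cosh, Complex.exp_neg]
    push_cast
    rw [Complex.exp_nat_mul, Complex.exp_log h0]
  rw [e2, ← norm_pow, ← norm_mul]
  have e3 : u ^ k * ((u ^ k + (u ^ k)⁻¹) / 2) = (1 + u ^ (2 * k)) / 2 := by
    field_simp; ring
  rw [e3, norm_div]
  have : 1 - ‖u‖ ≤ ‖1 + u ^ (2 * k)‖ := by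
    rcases Nat.eq_zero_or_pos k with rfl | hk
    · norm_num; linarith [norm_nonneg u]
    · have h2 := norm_sub_norm_le (1:ℂ) (-u ^ (2 * k))
      rw [norm_one, norm_neg, norm_pow, sub_neg_eq_add] at h2
      have h3 : ‖u‖ ^ (2 * k) ≤ ‖u‖ := pow_le_of_le_one (norm_nonneg _) h1.le (by omega)
      linarith
  simp only [Complex.norm_ofNat]
  linarith

end Pool.Agent.Lead.ER
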