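import Pool.Agent.Lead.ER.A
import Pool.Agent.Lead.ER.C

set_option autoImplicit false

namespace Pool.Agent.Lead.ER

open Polynomial MeasureTheory Set

variable (μ : Measure ℝ) [IsFiniteMeasure μ]

lemma integ (hμ : ∀ᵐ x ∂μ, x ∈ Icc (-1:ℝ) 1) {E : Type} [NormedAddCommGroup E] (f : ℝ → E)
    (hf : ContinuousOn f (Icc (-1) 1)) : Integrable f μ := by
  have := hf.integrableOn_compact (μ := μ) isCompact_Icc
  rwa [IntegrableOn, Measure.restrict_eq_self_of_ae_mem hμ] at this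

noncomputable def nrm (p : ℝ[X]) : ℝ := Real.sqrt (∫ x, (p.eval x) ^ 2 ∂μ)

lemma ev_map (q : ℝ[X]) (x : ℝ) :
    (q.map (algebraMap ℝ ℂ)).eval (x:ℂ) = ((q.eval x : ℝ) : ℂ) := by
  rw [Polynomial.eval_map_algebraMap]
  exact aeval_algebraMap_apply_eq_algebraMap_eval x q

lemma low (hμ : ∀ᵐ x ∂μ, x ∈ Icc (-1:ℝ) 1) (p : ℝ[X]) (k : ℕ) (hk : p.natDegree ≤ k)
    (horth : ∀ q : ℝ[X], q.degree < k → ∫ x, p.eval x * q.eval x ∂μ = 0) (hs : 0 < nrm μ p)
    (u : ℂ) (h0 : u ≠ 0) (h1 : ‖u‖ < 1) :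
    2 * ‖(Chebyshev.T ℂ k).eval ((u + u⁻¹) / 2)‖ * ((1 - ‖u‖) ^ 2 / 4) ^ 2 * nrm μ p ≤
      ‖(p.map (algebraMap ℝ ℂ)).eval ((u + u⁻¹) / 2)‖ * (1 + μ.real univ) := by
  obtain ⟨x0, hker⟩ := kernel u h0 h1
  set z := (u + u⁻¹) / 2 with hz
  set pc := p.map (algebraMap ℝ ℂ) with hpc
  set Tc := Chebyshev.T ℂ k with hTc
  set Tr := Chebyshev.T ℝ k with hTr
  have hTT : Tr.map (algebraMap ℝ ℂ) = Tc := Chebyshev.map_T _ _
  set N := C (Tc.eval z) * pc - C (pc.eval z) * Tc with hN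
  have hroot : N.IsRoot z := by simp [hN, IsRoot, mul_comm]
  obtain ⟨D, hD⟩ := dvd_iff_isRoot.mpr hroot
  have hNd : N.natDegree ≤ k := by
    refine (natDegree_sub_le _ _).trans (max_le ?_ ?_)
    · exact (natDegree_C_mul_le _ _).trans (natDegree_map_le.trans hk)
    · refine (natDegree_C_mul_le _ _).trans ?_
      rw [hTc, Chebyshev.natDegree_T]; simp
  have hDz : ∫ x, ((p.eval x : ℝ) : ℂ) * D.eval (x:ℂ) ∂μ = 0 := by
    by_cases hD0 : D = 0
    · simp [hD0]
    have hDd : D.natDegree < k := by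
      rw [hD, natDegree_mul (X_sub_C_ne_zero z) hD0, natDegree_X_sub_C] at hNd; omega
    simp only [eval_eq_sum_range' hDd, Finset.mul_sum]
    rw [integral_finsetSum _ (fun i _ => integ μ hμ _ (by fun_prop))]
    apply Finset.sum_eq_zero
    intro i hi
    have h2 := horth (X ^ i) (by rw [degree_X_pow]; exact_mod_cast Finset.mem_range.mp hi)
    have : ∀ x : ℝ, ((p.eval x : ℝ) : ℂ) * (D.coeff i * (x:ℂ) ^ i) =
        D.coeff i * ((p.eval x * (X ^ i : ℝ[X]).eval x : ℝ) : ℂ) := by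
      intro x; simp; ring
    simp only [this]
    rw [integral_const_mul, integral_complex_ofReal, h2]; simp
  set κ : ℝ → ℂ := fun x => (z - x0) / (z - x) with hκ
  have hκc : ContinuousOn κ (Icc (-1) 1) :=
    ContinuousOn.div (by fun_prop) (by fun_prop) (fun x hx => (hker x hx).1)
  have hpcont : Continuous (fun x : ℝ => ((p.eval x : ℝ) : ℂ)) := by fun_prop
  have hTcont : Continuous (fun x : ℝ => ((Tr.eval x : ℝ) : ℂ)) := by fun_prop
  have i1 : Integrable (fun x : ℝ => ((p.eval x : ℝ) : ℂ) ^ 2 * κ x) μ :=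
    integ μ hμ _ ((hpcont.pow 2).continuousOn.mul hκc)
  have i2 : Integrable (fun x : ℝ => ((p.eval x : ℝ) : ℂ) * ((Tr.eval x : ℝ) : ℂ) * κ x) μ :=
    integ μ hμ _ ((hpcont.mul hTcont).continuousOn.mul hκc)
  have hid : Tc.eval z * ∫ x, ((p.eval x : ℝ) : ℂ) ^ 2 * κ x ∂μ =
      pc.eval z * ∫ x, ((p.eval x : ℝ) : ℂ) * ((Tr.eval x : ℝ) : ℂ) * κ x ∂μ := by
    rw [← sub_eq_zero, ← integral_const_mul, ← integral_const_mul,
      ← integral_sub (i1.const_mul _) (i2.const_mul _)]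
    rw [integral_congr_ae (g := fun x : ℝ => (-(z - x0)) * (((p.eval x : ℝ) : ℂ) * D.eval (x:ℂ))),
      integral_const_mul, hDz, mul_zero]
    filter_upwards [hμ] with x hx
    have h3 := congrArg (eval (x:ℂ)) hD
    simp only [hN, eval_sub, eval_mul, eval_C, eval_X] at h3
    rw [hpc, ev_map, ← hTT, ev_map, hTT, ← hpc] at h3
    have h4 := (hker x hx).1
    simp only [hκ]
    field_simp
    linear_combination ((p.eval x : ℝ) : ℂ) * (z - x0) * h3
  have hp2 : Integrable (fun x => (p.eval x) ^ 2) μ := integ μ hμ _ (by fun_prop)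
  set s := nrm μ p with hsdef
  have hs2 : s ^ 2 = ∫ x, (p.eval x) ^ 2 ∂μ := Real.sq_sqrt (integral_nonneg (fun x => sq_nonneg _))
  set ρ := ((1 - ‖u‖) ^ 2 / 4) ^ 2 with hρ
  have hA : ρ * s ^ 2 ≤ ‖∫ x, ((p.eval x : ℝ) : ℂ) ^ 2 * κ x ∂μ‖ := by
    refine le_trans ?_ ((le_abs_self _).trans (Complex.abs_re_le_norm _))
    rw [hs2, ← integral_const_mul]
    have := integral_re i1
    simp only [RCLike.re_to_complex] at this
    rw [← this]
    apply integral_mono_ae (hp2.const_mul _) i1.re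
    filter_upwards [hμ] with x hx
    have h5 := (hker x hx).2.2
    show ρ * (p.eval x) ^ 2 ≤ (((p.eval x : ℝ) : ℂ) ^ 2 * κ x).re
    rw [← Complex.ofReal_pow, Complex.re_ofReal_mul, mul_comm]
    exact mul_le_mul_of_nonneg_left h5 (sq_nonneg _)
  have hB : ‖∫ x, ((p.eval x : ℝ) : ℂ) * ((Tr.eval x : ℝ) : ℂ) * κ x ∂μ‖ ≤
      s * (1 + μ.real univ) / 2 := by
    have h6 : ∫ x, ((p.eval x) ^ 2 / s + s) / 2 ∂μ = s * (1 + μ.real univ) / 2 := by
      rw [integral_div, integral_add (hp2.div_const _) (integrable_const _), integral_div, ← hs2,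
        integral_const, smul_eq_mul]
      field_simp
    rw [← h6]
    apply norm_integral_le_of_norm_le (((hp2.div_const _).add (integrable_const _)).div_const _)
    filter_upwards [hμ] with x hx
    have h7 := (hker x hx).2.1
    have h8 : |Tr.eval x| ≤ 1 := Chebyshev.abs_eval_T_real_le_one _ (abs_le.mpr hx)
    rw [norm_mul, norm_mul, Complex.norm_real, Complex.norm_real, Real.norm_eq_abs,
      Real.norm_eq_abs]
    have h9 : |p.eval x| * |Tr.eval x| * ‖κ x‖ ≤ |p.eval x| := by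
      rw [mul_assoc]
      exact mul_le_of_le_one_right (abs_nonneg _) (mul_le_one₀ h8 (norm_nonneg _) h7)
    refine h9.trans ?_
    show _ ≤ ((p.eval x) ^ 2 / s + s) / 2
    rw [le_div_iff₀ (by norm_num), div_add' _ _ _ hs.ne', le_div_iff₀ hs, ← sq_abs]
    nlinarith [sq_nonneg (|p.eval x| - s)]
  have hn := congrArg norm hid
  rw [norm_mul, norm_mul] at hn
  have h10 : ‖Tc.eval z‖ * (ρ * s ^ 2) ≤ ‖pc.eval z‖ * (s * (1 + μ.real univ) / 2) :=
    (mul_le_mul_of_nonneg_left hA (norm_nonneg _)).trans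
      (hn.le.trans (mul_le_mul_of_nonneg_left hB (norm_nonneg _)))
  apply le_of_mul_le_mul_right _ hs
  nlinarith

/-- sup bound for an orthogonal polynomial. -/
lemma upper (hμ : ∀ᵐ x ∂μ, x ∈ Icc (-1:ℝ) 1) (p : ℝ[X]) (hp : p.Monic)
    (horth : ∀ q : ℝ[X], q.degree < p.natDegree → ∫ x, p.eval x * q.eval x ∂μ = 0)
    (r r' M : ℝ) (hr' : 0 ≤ r') (hrr : r' < r) (hr1 : r < 1) (hM : 0 < M)
    (hlow : Real.exp (-M) ≤ 2 ^ p.natDegree * nrm μ p * ((1 - r) ^ 5 / (16 * (1 + μ.real univ))))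
    (x : ℝ) (hx : x ∈ Icc (-1:ℝ) 1) :
    2 ^ p.natDegree * |p.eval x| ≤
      (2 / (1 + r')) ^ (2 * p.natDegree) * Real.exp (2 * M * r' / (r - r')) := by
  set k := p.natDegree with hk
  set pc := p.map (algebraMap ℝ ℂ) with hpc
  have hm0 : 0 ≤ μ.real univ := measureReal_nonneg
  have hs : 0 < nrm μ p := by
    by_contra h
    have h0 : nrm μ p = 0 := le_antisymm (not_lt.mp h) (Real.sqrt_nonneg _)
    rw [h0] at hlow
    have := Real.exp_pos (-M)
    linarith [this, hlow]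
  have hcard : pc.roots.card = k := by
    rw [hk, ← hp.natDegree_map (algebraMap ℝ ℂ)]
    exact (IsAlgClosed.splits pc).natDegree_eq_card_roots.symm
  have hev : ∀ z, (pc.roots.map (fun ρ => z - ρ)).prod = pc.eval z := fun z =>
    ((IsAlgClosed.splits pc).eval_eq_prod_roots_of_monic (hp.map _) z).symm
  have hlo : ∀ u : ℂ, u ≠ 0 → ‖u‖ < 1 →
      2 ^ k * nrm μ p * ((1 - ‖u‖) ^ 5 / (16 * (1 + μ.real univ))) ≤
        ‖(2 * u) ^ k * pc.eval ((u + u⁻¹) / 2)‖ := by
    intro u h0 h1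
    have a1 := low μ hμ p k le_rfl horth hs u h0 h1
    have a2 := cheb_jouk u h0 h1 k
    rw [← hpc] at a1
    rw [norm_mul, norm_pow, norm_mul, mul_pow, ← mul_div_assoc, div_le_iff₀ (by positivity)]
    simp only [Complex.norm_ofNat]
    set a := ‖(Chebyshev.T ℂ k).eval ((u + u⁻¹) / 2)‖
    set b := ‖pc.eval ((u + u⁻¹) / 2)‖
    have hu1 : 0 < 1 - ‖u‖ := by linarith
    have a3 := mul_le_mul_of_nonneg_left a1 (show 0 ≤ ‖u‖ ^ k by positivity)
    have a4 := mul_le_mul_of_nonneg_right a2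
      (show 0 ≤ 2 * ((1 - ‖u‖) ^ 2 / 4) ^ 2 * nrm μ p by positivity)
    have a5 : nrm μ p * (1 - ‖u‖) ^ 5 ≤ ‖u‖ ^ k * b * (16 * (1 + μ.real univ)) := by nlinarith
    calc _ = 2 ^ k * (nrm μ p * (1 - ‖u‖) ^ 5) := by ring
      _ ≤ 2 ^ k * (‖u‖ ^ k * b * (16 * (1 + μ.real univ))) := by gcongr
      _ = _ := by ring
  obtain ⟨S, hS, hSc, hSe⟩ := jouk pc.roots (by
    intro u h0 h1 h
    have := hlo u h0 h1
    rw [← hev, h, mul_zero, norm_zero] at this
    have hu1 : 0 < 1 - ‖u‖ := by linarith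
    have : 0 < 2 ^ k * nrm μ p * ((1 - ‖u‖) ^ 5 / (16 * (1 + μ.real univ))) := by positivity
    linarith)
  set u : ℂ := x + Real.sqrt (1 - x ^ 2) * Complex.I with hu
  have hy2 : Real.sqrt (1 - x ^ 2) ^ 2 = 1 - x ^ 2 := Real.sq_sqrt (by nlinarith [hx.1, hx.2])
  have hun : ‖u‖ = 1 := by rw [hu, Complex.norm_add_mul_I, hy2]; simp
  have hu0 : u ≠ 0 := by intro h; rw [h] at hun; simp at hun
  have hux : (u + u⁻¹) / 2 = x := by
    rw [Complex.inv_def, Complex.normSq_eq_norm_sq, hun]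
    simp only [one_pow, inv_one, Complex.ofReal_one, mul_one]
    rw [Complex.add_conj]; simp [hu]
  have main := bc_prod S hS r r' M hr' hrr hr1.le hM (by
    intro v hv
    by_cases hv0 : v = 0
    · simp [hv0]; linarith
    rw [hSe v hv0, hev, hcard]
    refine hlow.trans (le_trans ?_ (hlo v hv0 (by linarith)))
    have : 0 < 1 - r := by linarith
    gcongr) u hun
  rw [hSe u hu0, hev, hcard, hSc, hcard, hux, hpc, ev_map, norm_mul, norm_pow, norm_mul, hun] at main
  simpa using main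

lemma upper2 (hμ : ∀ᵐ x ∂μ, x ∈ Icc (-1:ℝ) 1)
    (hreg : ∀ a : ℝ, 0 < a → a < 1 / 2 → ∃ κ : ℝ, 0 < κ ∧ ∀ q : ℝ[X], q.Monic →
      κ * a ^ q.natDegree ≤ nrm μ q) (b : ℝ) (hb : 1 < b) :
    ∃ C1 : ℝ, 0 < C1 ∧ ∀ p : ℝ[X], p.Monic →
      (∀ q : ℝ[X], q.degree < p.natDegree → ∫ x, p.eval x * q.eval x ∂μ = 0) →
      ∀ x ∈ Icc (-1:ℝ) 1, |p.eval x| ≤ C1 * b ^ p.natDegree * nrm μ p := by
  set β := Real.log b with hβ
  have hβ0 : 0 < β := Real.log_pos hb
  set r' := Real.exp (-(β / 4)) with hr'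
  have hr'0 : 0 < r' := Real.exp_pos _
  have hr'1 : r' < 1 := Real.exp_lt_one_iff.mpr (by linarith)
  set r := (1 + r') / 2 with hr
  have hrr : r' < r := by linarith
  have hr1 : r < 1 := by linarith
  set L := 2 * r' / (r - r') with hL
  have hL0 : 0 < L := div_pos (by linarith) (by linarith)
  set τ := β / (2 * (L + 1)) with hτ
  have hτ0 : 0 < τ := by positivity
  obtain ⟨κ, hκ, H⟩ := hreg (Real.exp (-τ) / 2) (by positivity) (by
    have := Real.exp_lt_one_iff.mpr (show -τ < 0 by linarith); linarith)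
  have hm0 : 0 ≤ μ.real univ := measureReal_nonneg
  set c := (1 - r) ^ 5 / (16 * (1 + μ.real univ)) with hc
  have hc0 : 0 < c := by
    have : 0 < 1 - r := by linarith
    positivity
  set M0 := |Real.log (κ * c)| + 1 with hM0
  have hM00 : 0 < M0 := by positivity
  have hM0e : Real.exp (-M0) ≤ κ * c := by
    rw [← Real.exp_log (show 0 < κ * c by positivity), Real.exp_le_exp]
    linarith [neg_abs_le (Real.log (κ * c))]
  refine ⟨Real.exp (L * M0) / κ, by positivity, fun p hp horth x hx => ?_⟩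
  set k := p.natDegree with hk
  have h1 : κ * Real.exp (-(τ * k)) ≤ 2 ^ k * nrm μ p := by
    have := H p hp
    rw [← hk, div_pow, ← Real.exp_nat_mul, ← mul_div_assoc, div_le_iff₀ (by positivity)] at this
    rw [show -(τ * k) = k * -τ by ring]; linarith
  have h2 := upper μ hμ p hp horth r r' (τ * k + M0) hr'0.le hrr hr1 (by positivity) (by
    rw [← hk, ← hc, neg_add, Real.exp_add]
    calc _ ≤ Real.exp (-(τ * k)) * (κ * c) := by gcongr
      _ = κ * Real.exp (-(τ * k)) * c := by ring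
      _ ≤ _ := by gcongr) x hx
  rw [← hk] at h2
  have h3 : 2 / (1 + r') ≤ Real.exp (β / 4) := by
    rw [div_le_iff₀ (by positivity), mul_add, hr', ← Real.exp_add]
    have := Real.one_le_exp (show 0 ≤ β / 4 by positivity)
    simp; linarith
  have h4 : (2 / (1 + r')) ^ (2 * k) ≤ Real.exp (k * (β / 2)) := by
    refine (pow_le_pow_left₀ (by positivity) h3 _).trans (le_of_eq ?_)
    rw [← Real.exp_nat_mul]; congr 1; push_cast; ring
  have h5 : 2 * (τ * k + M0) * r' / (r - r') = L * (τ * k) + L * M0 := by rw [hL]; ring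
  have h6 : b ^ k = Real.exp (k * (β / 2)) * Real.exp (L * (τ * k)) * Real.exp (τ * k) := by
    rw [← Real.exp_add, ← Real.exp_add, ← Real.exp_log (show 0 < b by linarith), ← hβ,
      ← Real.exp_nat_mul]
    congr 1; rw [hτ]; field_simp; ring
  rw [h5, Real.exp_add] at h2
  apply le_of_mul_le_mul_left _ (show (0:ℝ) < 2 ^ k by positivity)
  refine h2.trans ?_
  calc _ ≤ Real.exp (k * (β / 2)) * (Real.exp (L * (τ * k)) * Real.exp (L * M0)) := by gcongr
    _ = Real.exp (L * M0) / κ * b ^ k * (κ * Real.exp (-(τ * k))) := by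
      rw [h6, Real.exp_neg]; field_simp
    _ ≤ Real.exp (L * M0) / κ * b ^ k * (2 ^ k * nrm μ p) := by gcongr
    _ = _ := by ring

/-- Bernstein-Markov property of a regular measure. -/
theorem bm (hμ : ∀ᵐ x ∂μ, x ∈ Icc (-1:ℝ) 1)
    (hreg : ∀ a : ℝ, 0 < a → a < 1 / 2 → ∃ κ : ℝ, 0 < κ ∧ ∀ q : ℝ[X], q.Monic →
      κ * a ^ q.natDegree ≤ nrm μ q) (b : ℝ) (hb : 1 < b) :
    ∃ D : ℝ, 0 < D ∧ ∀ (k : ℕ) (P : ℝ[X]), P.degree < k →
      ∀ x ∈ Icc (-1:ℝ) 1, |P.eval x| ≤ D * b ^ k * nrm μ P := by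
  obtain ⟨C1, hC1, H⟩ := upper2 μ hμ hreg b hb
  have hint : ∀ p q : ℝ[X], Integrable (fun x => p.eval x * q.eval x) μ :=
    fun p q => integ μ hμ _ (by fun_prop)
  let B : ℝ[X] →ₗ[ℝ] ℝ[X] →ₗ[ℝ] ℝ := LinearMap.mk₂ ℝ (fun p q => ∫ x, p.eval x * q.eval x ∂μ)
    (fun p p' q => by simp only [eval_add, add_mul]; exact integral_add (hint _ _) (hint _ _))
    (fun c p q => by simp only [eval_smul, smul_eq_mul, mul_assoc]; exact integral_const_mul _ _)
    (fun p q q' => by simp only [eval_add, mul_add]; exact integral_add (hint _ _) (hint _ _))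
    (fun c p q => by
      simp only [eval_smul, smul_eq_mul, mul_left_comm _ c]; exact integral_const_mul _ _)
  have hB : ∀ p q, B p q = ∫ x, p.eval x * q.eval x ∂μ := fun _ _ => rfl
  have hn : ∀ p, nrm μ p = Real.sqrt (B p p) := fun p => by simp only [nrm, hB, sq]
  have hsym : ∀ p q, B p q = B q p := fun p q => by simp only [hB, mul_comm]
  have hpos : ∀ p, 0 ≤ B p p := fun p => integral_nonneg (fun x => mul_self_nonneg _)
  have hne : ∀ p : ℝ[X], p.Monic → B p p ≠ 0 := by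
    intro p hp h
    obtain ⟨κ, hκ, H⟩ := hreg (1/4) (by norm_num) (by norm_num)
    have := H p hp
    rw [hn, h, Real.sqrt_zero] at this
    have : 0 < κ * (1/4:ℝ) ^ p.natDegree := by positivity
    linarith
  have hb1 : 0 < b - 1 := by linarith
  refine ⟨C1 / (b - 1), by positivity, fun k => ?_⟩
  induction k with
  | zero =>
    intro P hP x _
    have : P = 0 := by
      rw [← degree_eq_bot]
      simpa using hP
    simp [this, nrm]
  | succ k ih =>
    intro P hP x hx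
    obtain ⟨p, hp, hpk, horth⟩ := exists_orth B hne k
    have hd := dec p P k hp hpk hP
    set c := P.coeff k
    set P' := P - C c * p with hP'
    have e : P = c • p + P' := by rw [hP', smul_eq_C_mul]; ring
    have hpy : B P P = c ^ 2 * B p p + B P' P' := by
      conv_lhs => rw [e]
      simp only [map_add, map_smul, LinearMap.add_apply, LinearMap.smul_apply, smul_eq_mul]
      rw [hsym P' p, horth P' hd]; ring
    have a1 : |c| * nrm μ p ≤ nrm μ P := by
      rw [hn, hn, ← Real.sqrt_sq_eq_abs, ← Real.sqrt_mul (sq_nonneg _)]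
      apply Real.sqrt_le_sqrt; linarith [hpos P']
    have a2 : nrm μ P' ≤ nrm μ P := by
      rw [hn, hn]
      apply Real.sqrt_le_sqrt; nlinarith [hpos p, sq_nonneg c]
    have b1 := H p hp (by rw [hpk]; exact horth) x hx
    rw [hpk] at b1
    have b2 := ih P' hd x hx
    have hb0 : 0 < b := by linarith
    calc |P.eval x| = |c * p.eval x + P'.eval x| := by conv_lhs => rw [e]
                                                       simp
      _ ≤ |c| * |p.eval x| + |P'.eval x| := by rw [← abs_mul]; exact abs_add_le _ _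
      _ ≤ |c| * (C1 * b ^ k * nrm μ p) + C1 / (b - 1) * b ^ k * nrm μ P' := by gcongr
      _ = C1 * b ^ k * (|c| * nrm μ p) + C1 / (b - 1) * b ^ k * nrm μ P' := by ring
      _ ≤ C1 * b ^ k * nrm μ P + C1 / (b - 1) * b ^ k * nrm μ P := by gcongr
      _ = _ := by field_simp; ring

end Pool.Agent.Lead.ER
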