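import Pool.Agent.Lead.ER.B
import Pool.Agent.Lead.ER.D

set_option autoImplicit false

namespace Pool.Agent.Lead.ER

open Polynomial MeasureTheory Set Filter

noncomputable def mu (w : ℝ → ℝ) : Measure ℝ :=
  (volume.restrict (Icc (-1:ℝ) 1)).withDensity (fun x => ENNReal.ofReal (w x))

lemma mu_ae (w : ℝ → ℝ) : ∀ᵐ x ∂(mu w), x ∈ Icc (-1:ℝ) 1 :=
  (withDensity_absolutelyContinuous _ _).ae_le (ae_restrict_mem measurableSet_Icc)

lemma w_int (w : ℝ → ℝ) (hw : Measurable w) (h0 : ∀ x, 0 ≤ w x) (M : ℝ) (hM : ∀ x, w x ≤ M) :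
    Integrable w (volume.restrict (Icc (-1:ℝ) 1)) := by
  apply Integrable.of_bound hw.aestronglyMeasurable M
  exact Eventually.of_forall (fun x => by rw [Real.norm_eq_abs, abs_of_nonneg (h0 x)]; exact hM x)

lemma mu_fin (w : ℝ → ℝ) (hw : Measurable w) (h0 : ∀ x, 0 ≤ w x) (M : ℝ) (hM : ∀ x, w x ≤ M) :
    IsFiniteMeasure (mu w) :=
  isFiniteMeasure_withDensity_ofReal (w_int w hw h0 M hM).2

lemma mu_int (w : ℝ → ℝ) (hw : Measurable w) (h0 : ∀ x, 0 ≤ w x) (f : ℝ → ℝ) :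
    ∫ x, f x ∂(mu w) = ∫ x in Icc (-1:ℝ) 1, f x * w x := by
  unfold mu
  rw [integral_withDensity_eq_integral_toReal_smul hw.ennreal_ofReal
    (Eventually.of_forall (fun _ => ENNReal.ofReal_lt_top))]
  simp only [ENNReal.toReal_ofReal (h0 _), smul_eq_mul, mul_comm]

lemma nrm_mu (w : ℝ → ℝ) (hw : Measurable w) (h0 : ∀ x, 0 ≤ w x) (q : ℝ[X]) :
    nrm (mu w) q = Real.sqrt (∫ x in (-1:ℝ)..1, (q.eval x) ^ 2 * w x) := by
  rw [nrm, mu_int w hw h0, intervalIntegral.integral_of_le (by norm_num),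
    integral_Icc_eq_integral_Ioc]

lemma reg_of_tendsto (μ : Measure ℝ) [IsFiniteMeasure μ] (hμ : ∀ᵐ x ∂μ, x ∈ Icc (-1:ℝ) 1)
    (h : Tendsto (fun k : ℕ => (sInf {t : ℝ | ∃ q : ℝ[X], q.Monic ∧ q.natDegree = k ∧
      t = nrm μ q}) ^ ((1:ℝ) / k)) atTop (nhds (1 / 2))) (a : ℝ) (ha : 0 < a) (ha2 : a < 1 / 2) :
    ∃ κ : ℝ, 0 < κ ∧ ∀ q : ℝ[X], q.Monic → κ * a ^ q.natDegree ≤ nrm μ q := by
  obtain ⟨k0, hk0⟩ := eventually_atTop.mp (h.eventually (lt_mem_nhds ha2))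
  refine ⟨a ^ (k0 + 1), by positivity, fun q hq => ?_⟩
  set k := k0 + 1 + q.natDegree with hk
  have h1 := hk0 k (by omega)
  set N := sInf {t : ℝ | ∃ q : ℝ[X], q.Monic ∧ q.natDegree = k ∧ t = nrm μ q} with hN
  have hN0 : 0 ≤ N := Real.sInf_nonneg (by rintro t ⟨q, -, -, rfl⟩; exact Real.sqrt_nonneg _)
  have h2 : a ^ k ≤ N := by
    have := pow_le_pow_left₀ ha.le h1.le k
    rwa [one_div, Real.rpow_inv_natCast_pow hN0 (by omega)] at this
  have h3 : N ≤ nrm μ (X ^ (k0 + 1) * q) := by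
    apply csInf_le ⟨0, by rintro t ⟨q, -, -, rfl⟩; exact Real.sqrt_nonneg _⟩
    refine ⟨_, (monic_X_pow _).mul hq, ?_, rfl⟩
    rw [(monic_X_pow _).natDegree_mul hq, natDegree_X_pow]
  have h4 : nrm μ (X ^ (k0 + 1) * q) ≤ nrm μ q := by
    apply Real.sqrt_le_sqrt
    apply integral_mono_ae (integ μ hμ _ (by fun_prop)) (integ μ hμ _ (by fun_prop))
    filter_upwards [hμ] with x hx
    rw [eval_mul, eval_pow, eval_X, mul_pow]
    apply mul_le_of_le_one_left (sq_nonneg _)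
    rw [← pow_mul, mul_comm, pow_mul]
    exact pow_le_one₀ (sq_nonneg _) (by nlinarith [hx.1, hx.2])
  rw [← pow_add]; linarith

theorem core (w : ℝ → ℝ) (hw : Measurable w) (h0 : ∀ x, 0 ≤ w x) (M : ℝ) (hM : ∀ x, w x ≤ M)
    (hreg : ∀ a : ℝ, 0 < a → a < 1 / 2 → ∃ κ : ℝ, 0 < κ ∧ ∀ q : ℝ[X], q.Monic →
      κ * a ^ q.natDegree ≤ nrm (mu w) q) (c : ℝ) (hc : 0 < c) (hc2 : c < 1 / 2) :
    ∃ ε : ℝ, 0 < ε ∧ ∀ F : Set ℝ, MeasurableSet F →
      volume ({x : ℝ | x ∈ Icc (-1:ℝ) 1 ∧ 0 < w x} \ F) ≤ ENNReal.ofReal ε →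
      ∀ q : ℝ[X], q.Monic → 1 ≤ q.natDegree → ¬ (∀ x ∈ F, |q.eval x| ≤ c ^ q.natDegree) := by
  haveI := mu_fin w hw h0 M hM
  have hM0 : 0 ≤ M := (h0 0).trans (hM 0)
  obtain ⟨K, hK, Hd⟩ := disc
  set a := (c + 1 / 2) / 2 with ha
  have ha0 : 0 < a := by positivity
  obtain ⟨κ, hκ, Hr⟩ := hreg a ha0 (by linarith)
  set t := c / a with ht
  have ht0 : 0 < t := by positivity
  have ht1 : t < 1 := by rw [ht, div_lt_one ha0]; linarith
  set g := (1 + t) / 2 with hg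
  have hg0 : 0 < g := by positivity
  have hg1 : g < 1 := by linarith
  have hgt : t / g ^ 2 < 1 := by
    rw [div_lt_one (by positivity), hg]; nlinarith [sq_pos_of_pos (show 0 < 1 - t by linarith)]
  set b := 2 / (1 + g) with hb
  have hb1 : 1 < b := by rw [hb, one_lt_div (by positivity)]; linarith
  have hbg : b ^ 2 * g < 1 := by
    rw [hb, div_pow, div_mul_eq_mul_div, div_lt_one (by positivity)]
    nlinarith [sq_pos_of_pos (show 0 < 1 - g by linarith)]
  obtain ⟨D, hD, Hb⟩ := bm (mu w) (mu_ae w) hreg b hb1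
  have l1 : Tendsto (fun k : ℕ => D ^ 2 * b ^ 2 * M * K * (k * (b ^ 2 * g) ^ k + (b ^ 2 * g) ^ k))
      atTop (nhds (D ^ 2 * b ^ 2 * M * K * (0 + 0))) :=
    ((tendsto_self_mul_const_pow_of_lt_one (by positivity) hbg).add
      (tendsto_pow_atTop_nhds_zero_of_lt_one (by positivity) hbg)).const_mul _
  have l2 : Tendsto (fun k : ℕ => 4 * M * c ^ 2 * ((t / g ^ 2) ^ k) ^ 2)
      atTop (nhds (4 * M * c ^ 2 * 0 ^ 2)) :=
    ((tendsto_pow_atTop_nhds_zero_of_lt_one (by positivity) hgt).pow 2).const_mul _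
  obtain ⟨k, k1, k2⟩ := ((l1.eventually (gt_mem_nhds (show _ < (1/4:ℝ) by norm_num))).and
    (l2.eventually (gt_mem_nhds (show _ < κ ^ 2 by simp; positivity)))).exists
  set β := D * b ^ (k + 1) with hβ
  have hβ0 : 0 < β := by positivity
  refine ⟨1 / (4 * (β ^ 2 * M + 1)), by positivity, fun F hF hv q hq hq1 hsm => ?_⟩
  set ε := 1 / (4 * (β ^ 2 * M + 1)) with hε
  have hε0 : 0 < ε := by positivity
  have hε1 : β ^ 2 * M * ε ≤ 1 / 4 := by
    rw [hε, mul_one_div, div_le_div_iff₀ (by positivity) (by norm_num)]; linarith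
  obtain ⟨P, hP, hPk, B, hB, hBv, HP⟩ := Hd q hq hq1 k ((g ^ k) ^ 2) (by positivity)
  rw [Real.sqrt_sq (by positivity)] at hBv
  set W := {x : ℝ | x ∈ Icc (-1:ℝ) 1 ∧ 0 < w x} with hW
  have hWm : MeasurableSet W := measurableSet_Icc.inter (measurableSet_lt measurable_const hw)
  set Bad := B ∪ (W \ F) with hBad
  have hBadm : MeasurableSet Bad := hB.union (hWm.diff hF)
  have hBadv : volume Bad ≤ ENNReal.ofReal ((k + 1) * (K * g ^ k) + ε) := by
    rw [ENNReal.ofReal_add (by positivity) hε0.le]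
    exact (measure_union_le _ _).trans (add_le_add hBv hv)
  set s := nrm (mu w) P with hs
  have hs1 : κ * a ^ k ≤ s := by rw [← hPk]; exact Hr P hP
  have hs0 : 0 < s := lt_of_lt_of_le (by positivity) hs1
  have hs2 : s ^ 2 = ∫ x in Icc (-1:ℝ) 1, (P.eval x) ^ 2 * w x := by
    rw [hs, nrm, Real.sq_sqrt (integral_nonneg (fun x => sq_nonneg _)), mu_int w hw h0]
  set α := c ^ (k + 1) / (g ^ k) ^ 2 with hα
  have hpt : ∀ x ∈ Icc (-1:ℝ) 1, (P.eval x) ^ 2 * w x ≤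
      α ^ 2 * M + Bad.indicator (fun _ => (β * s) ^ 2 * M) x := by
    intro x hx
    by_cases hxB : x ∈ Bad
    · rw [indicator_of_mem hxB]
      have := Hb (k + 1) P (by
        rw [degree_eq_natDegree hP.ne_zero, hPk]; exact_mod_cast Nat.lt_succ_self k) x hx
      have h2 : (P.eval x) ^ 2 ≤ (β * s) ^ 2 := by
        rw [← sq_abs]; exact pow_le_pow_left₀ (abs_nonneg _) this 2
      have := mul_le_mul h2 (hM x) (h0 x) (sq_nonneg _)
      have : 0 ≤ α ^ 2 * M := by positivity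
      linarith
    · rw [indicator_of_notMem hxB, add_zero]
      by_cases hwx : 0 < w x
      · have hxF : x ∈ F := by
          by_contra h
          exact hxB (Or.inr ⟨⟨hx, hwx⟩, h⟩)
        have h1 := HP x hx (fun h => hxB (Or.inl h))
        have h2 := h1.trans (pow_le_pow_left₀ (abs_nonneg _) (hsm x hxF) _)
        rw [← pow_mul c, mul_comm q.natDegree, pow_mul c,
          pow_le_pow_iff_left₀ (by positivity) (by positivity) (by omega)] at h2
        have h3 : |P.eval x| ≤ α := by rw [hα, le_div_iff₀ (by positivity)]; exact h2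
        have h4 : (P.eval x) ^ 2 ≤ α ^ 2 := by
          rw [← sq_abs]; exact pow_le_pow_left₀ (abs_nonneg _) h3 2
        exact mul_le_mul h4 (hM x) (h0 x) (sq_nonneg _)
      · have : w x = 0 := le_antisymm (not_lt.mp hwx) (h0 x)
        rw [this, mul_zero]; positivity
  have hI : s ^ 2 ≤ 2 * (α ^ 2 * M) + ((k + 1) * (K * g ^ k) + ε) * ((β * s) ^ 2 * M) := by
    rw [hs2]
    have i1 : Integrable (fun _ : ℝ => α ^ 2 * M) (volume.restrict (Icc (-1:ℝ) 1)) :=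
      integrable_const _
    have i2 : Integrable (Bad.indicator (fun _ => (β * s) ^ 2 * M))
        (volume.restrict (Icc (-1:ℝ) 1)) := (integrable_const _).indicator hBadm
    refine (integral_mono_of_nonneg (Eventually.of_forall (fun x => mul_nonneg (sq_nonneg _) (h0 x)))
      (i1.add i2) ?_).trans ?_
    · filter_upwards [ae_restrict_mem measurableSet_Icc] with x hx using hpt x hx
    · rw [integral_add' i1 i2, integral_indicator_const _ hBadm, integral_const]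
      apply add_le_add
      · simp; norm_num
      · rw [smul_eq_mul]
        apply mul_le_mul_of_nonneg_right _ (by positivity)
        exact ENNReal.toReal_le_of_le_ofReal (by positivity)
          ((Measure.restrict_apply_le _ _).trans hBadv)
  have e1 : ((k + 1) * (K * g ^ k)) * (β ^ 2 * M) =
      D ^ 2 * b ^ 2 * M * K * (k * (b ^ 2 * g) ^ k + (b ^ 2 * g) ^ k) := by
    rw [hβ, mul_pow (b ^ 2)]; ring
  have e2 : 4 * (α ^ 2 * M) = 4 * M * c ^ 2 * ((t / g ^ 2) ^ k) ^ 2 * (a ^ k) ^ 2 := by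
    have e3 : (t / g ^ 2) ^ k * a ^ k = c ^ k / (g ^ k) ^ 2 := by
      rw [← mul_pow, ← pow_mul, mul_comm k 2, pow_mul, ← div_pow]
      congr 1
      rw [ht]; field_simp
    rw [mul_assoc (4 * M * c ^ 2), ← mul_pow, e3, hα, pow_succ c]
    generalize (g ^ k) ^ 2 = G
    ring
  have f1 : s ^ 2 ≤ 4 * (α ^ 2 * M) := by
    have : ((k + 1) * (K * g ^ k) + ε) * ((β * s) ^ 2 * M) =
        (((k + 1) * (K * g ^ k)) * (β ^ 2 * M) + β ^ 2 * M * ε) * s ^ 2 := by ring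
    rw [this, e1] at hI
    nlinarith [sq_nonneg s]
  have f2 : (κ * a ^ k) ^ 2 ≤ s ^ 2 := pow_le_pow_left₀ (by positivity) hs1 2
  rw [e2] at f1
  have f3 := mul_lt_mul_of_pos_right k2 (show 0 < (a ^ k) ^ 2 by positivity)
  rw [mul_pow] at f2
  linarith

end Pool.Agent.Lead.ER
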